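import Mathlib
import Pool.Agent.PDM.Stmts

/-!
# PDX: no short system of conditions on the entries. Definitions

For two subsets `x, y` of `Fin M` we write down an instance `inst M x y` of 3-DIMENSIONAL MATCHING
which has a matching iff `x` and `y` intersect. The elements of each kind are `4 i, .., 4 i + 3`
for `i < M` and the token `4 M`; for every `i` there are seven triples.
-/

set_option autoImplicit false

namespace Pool.Agent.PDX

open Pool.Agent.PDN Pool.Agent.PDM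

/-- the positions of the triples -/
abbrev Pos (M : ℕ) : Type := Fin M × Fin 7

/-- first coordinate; it depends on `x` for the positions `0, 1` and on `y` for `2, 3` -/
def c1 (M : ℕ) (x y : Finset (Fin M)) (p : Pos M) : ℕ :=
  if p.2 = 0 then (if p.1 ∈ x then 4 * (p.1 : ℕ) else 4 * (p.1 : ℕ) + 1)
  else if p.2 = 1 then (if p.1 ∈ x then 4 * (p.1 : ℕ) + 1 else 4 * (p.1 : ℕ))
  else if p.2 = 2 then (if p.1 ∈ y then 4 * (p.1 : ℕ) + 2 else 4 * (p.1 : ℕ) + 3)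
  else if p.2 = 3 then (if p.1 ∈ y then 4 * (p.1 : ℕ) + 3 else 4 * (p.1 : ℕ) + 2)
  else if p.2 = 4 then 4 * M
  else if p.2 = 5 then 4 * (p.1 : ℕ) + 1
  else 4 * (p.1 : ℕ) + 3

/-- second coordinate -/
def c2 (M : ℕ) (p : Pos M) : ℕ :=
  if p.2 = 0 then 4 * (p.1 : ℕ)
  else if p.2 = 1 then 4 * (p.1 : ℕ) + 1
  else if p.2 = 2 then 4 * (p.1 : ℕ) + 2
  else if p.2 = 3 then 4 * (p.1 : ℕ) + 3
  else if p.2 = 4 then 4 * (p.1 : ℕ) + 1
  else if p.2 = 5 then 4 * (p.1 : ℕ) + 3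
  else 4 * M

/-- third coordinate -/
def c3 (M : ℕ) (p : Pos M) : ℕ :=
  if p.2 = 0 then 4 * (p.1 : ℕ)
  else if p.2 = 1 then 4 * (p.1 : ℕ) + 1
  else if p.2 = 2 then 4 * (p.1 : ℕ) + 2
  else if p.2 = 3 then 4 * (p.1 : ℕ) + 3
  else if p.2 = 4 then 4 * (p.1 : ℕ) + 3
  else if p.2 = 5 then 4 * M
  else 4 * (p.1 : ℕ) + 1

theorem c1_lt (M : ℕ) (x y : Finset (Fin M)) (p : Pos M) : c1 M x y p < 4 * M + 1 := by
  have := p.1.isLt
  unfold c1
  split_ifs <;> omega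

theorem c2_lt (M : ℕ) (p : Pos M) : c2 M p < 4 * M + 1 := by
  have := p.1.isLt
  unfold c2
  split_ifs <;> omega

theorem c3_lt (M : ℕ) (p : Pos M) : c3 M p < 4 * M + 1 := by
  have := p.1.isLt
  unfold c3
  split_ifs <;> omega

/-- the triples -/
def trp (M : ℕ) (x y : Finset (Fin M)) (p : Pos M) :
    Fin (4 * M + 1) × Fin (4 * M + 1) × Fin (4 * M + 1) :=
  (⟨c1 M x y p, c1_lt M x y p⟩, ⟨c2 M p, c2_lt M p⟩, ⟨c3 M p, c3_lt M p⟩)

/-- the instance -/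
def inst (M : ℕ) (x y : Finset (Fin M)) : Ins (4 * M + 1) := Finset.univ.image (trp M x y)

/-- the reference instance -/
abbrev ins0 (M : ℕ) : Ins (4 * M + 1) := inst M ∅ ∅

/-- the entries which do not depend on `x, y`: elements, the vertices `E`, dummies, `Z`, the
entries `8` and `3` -/
abbrev Bas (M : ℕ) : Type :=
  (Fin 3 × Fin (4 * M + 1)) ⊕ ((Fin 2 × Bool) ⊕ (Fin (4 * (4 * M + 1) + 4) ⊕
    (Unit ⊕ (Fin (n4 (ins0 M)) ⊕ Fin (n3 (ins0 M))))))

/-- their values -/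
def gv (M : ℕ) : Bas M → ℕ
  | Sum.inl x => 2 * (sc (ins0 M) * vA x.1 x.2) - (if x.1 ≠ 2 then 1 else 0)
  | Sum.inr (Sum.inl x) => 2 * (sc (ins0 M) * (if x.1 = 0 then 1 else 3) +
      (if x.2 then 3 else 0)) - (if x.2 then 0 else 1)
  | Sum.inr (Sum.inr (Sum.inl _)) => 2 * (sc (ins0 M) * vD (4 * M + 1)) - 1
  | Sum.inr (Sum.inr (Sum.inr (Sum.inl _))) =>
      2 * (sc (ins0 M) * vZ (ins0 M) - (14 * (ins0 M).card + 2 * (4 * M + 1) + 20))
  | Sum.inr (Sum.inr (Sum.inr (Sum.inr (Sum.inl _)))) => 8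
  | Sum.inr (Sum.inr (Sum.inr (Sum.inr (Sum.inr _)))) => 3

/-- the entries of the triples -/
def wv (M : ℕ) (x y : Finset (Fin M)) (p : Pos M) : ℕ :=
  2 * (sc (ins0 M) * vC (trp M x y p) - 10)

end Pool.Agent.PDX
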