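import Mathlib
import Pool.Agent.PDX.Defs

/-!
# PDX: statements of the modules

Final theorem (`ResStmt`): a system of `K` conditions on the entries, each of them an arbitrary
Boolean function of `s` inequalities `0 ≤ ∑ i, φ i (v i)` with arbitrary functions `φ i : ℕ → ℝ`,
which describes the planar sequences of length `n` has `K ≥ (9 / 8) ^ m / (2 (4 m + 3) ^ s)`,
`n ≤ 10 ^ 11 (8 m + 2) ^ 19`. All rows are independent of each other.
-/

set_option autoImplicit false

namespace Pool.Agent.PDX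

open Pool.Agent.PDN Pool.Agent.PDM

/-! ## The instance -/

/-- MT1 (about 150 lines). Let `i₀ ∈ x ∩ y`. The positions `(i, 0), (i, 1), (i, 2), (i, 3)` for
`i ≠ i₀` and `(i₀, 0), (i₀, 2), (i₀, 4), (i₀, 5), (i₀, 6)`, together `4 M + 1`. At `i₀` the triples
are `(4i, 4i, 4i)`, `(4i+2, 4i+2, 4i+2)`, `(4M, 4i+1, 4i+3)`, `(4i+1, 4i+3, 4M)`,
`(4i+3, 4M, 4i+1)`; at `i ≠ i₀` the first coordinates of `0, 1` are `4i, 4i+1` in some order and
those of `2, 3` are `4i+2, 4i+3` in some order. (Suggested: show that each of the three coordinates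
is injective on this set of positions; `trp` is injective on it, so the image has the same
cardinality. Everything by `omega` after `fin_cases` of the second components.) -/
def Mt1Stmt : Prop :=
  ∀ (M : ℕ) (x y : Finset (Fin M)), (∃ i, i ∈ x ∧ i ∈ y) → Matching (inst M x y)

/-- MT2 (about 150 lines). Let `S` be the matching. It has `4 M + 1` elements and each coordinate is
injective on it, so every `j : Fin (4 M + 1)` is the first (second, third) coordinate of a triple
of `S`; two triples of `S` with one common coordinate are equal. The first coordinate `4 M` occurs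
only in the triples of the positions `(i, 4)`: choose `i`. `(4M, 4i+1, 4i+3) ∈ S`. The third
coordinate `4i+1` occurs at `(i, 1)` (its second coordinate `4i+1` is used already, so it is not in
`S`) and at `(i, 6)`: so `(4i+3, 4M, 4i+1) ∈ S`. The second coordinate `4i+3` occurs at `(i, 3)`
(third coordinate `4i+3` used already) and at `(i, 5)`: so `(4i+1, 4i+3, 4M) ∈ S`. The second
coordinate `4i` occurs only at `(i, 0)`, and its first coordinate is not `4i+1` (used by `(i, 5)`),
so `i ∈ x`. The second coordinate `4i+2` occurs only at `(i, 2)`, its first coordinate is not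
`4i+3` (used by `(i, 6)`), so `i ∈ y`. -/
def Mt2Stmt : Prop :=
  ∀ (M : ℕ) (x y : Finset (Fin M)), Matching (inst M x y) → ∃ i, i ∈ x ∧ i ∈ y

/-- INV (about 120 lines). `trp` is injective (second and third coordinate determine the position),
so the card is `7 M` and `sC (inst M x y) = ∑ p : Pos M, vC (trp M x y p)`; the sum over the
positions of `vA 0 (c1 ..)` does not depend on `x, y`: for every `i` the positions `0, 1` give
`4i, 4i+1` in some order, the positions `2, 3` give `4i+2, 4i+3` in some order. -/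
def InvStmt : Prop :=
  ∀ (M : ℕ) (x y : Finset (Fin M)), Function.Injective (trp M x y) ∧
    (inst M x y).card = (ins0 M).card ∧ sC (inst M x y) = sC (ins0 M)

/-- SEQ (uses INV; about 150 lines). `sc`, `vZ`, `n4`, `n3` depend only on the card and on `sC`.
`Big (inst M x y)` without its triples, `Fin n4` and `Fin n3` is `Bas M`, and the triples are the
positions (`trp` is injective). -/
def SeqStmt : Prop :=
  ∀ (M : ℕ) (x y : Finset (Fin M)),
    seqm (inst M x y) = Finset.univ.val.map (Sum.elim (gv M) (wv M x y))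

/-- ORA (about 150 lines). `vC (trp M x y p) = 8 (3 off + code 0 _ + code 1 (c2 p) + code 2 (c3 p))`
with `code 0 _ < bs ^ 2`, `code 1 _ < bs ^ 4`, `code 2 _` divisible by `bs ^ 4` and increasing in
`c3`, `code 1 _` divisible by `bs ^ 2` and increasing in `c2` (bounds: `(i + 1) ^ 2 ≤ t ^ 2`,
`bs = 4 (t + 1) ^ 2`; increments are at least `bs ^ 4` resp. `bs ^ 2`). So if
`(c3 p, c2 p) < (c3 p', c2 p')` lexicographically then `vC (trp M x y p) < vC (trp M x' y' p')` for
all `x, y, x', y'`. Different positions have different pairs `(c3, c2)`. -/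
def OraStmt : Prop :=
  ∀ (M : ℕ) (x y : Finset (Fin M)) (p p' : Pos M), wv M ∅ ∅ p ≤ wv M ∅ ∅ p' →
    wv M x y p ≤ wv M x y p'

/-- ORB (about 150 lines). The entries of the elements, of the vertices `E`, and `8`, `3` are
smaller than `wv M x y p`, the entries of the dummies and of `Z` are larger than `wv M x y p`, for
all `x, y, p`. With `t = 4 M + 1`, `c = sc (ins0 M) ≥ 200 (t + card + 2)`, `off ≥ 16 bs ^ 6`,
`code < bs ^ 6` (see Helper86_PDM SID, first claim): `vA ≤ 8 off + 8 bs ^ 6`, `vC ≥ 24 off`,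
`vC ≤ sA t < vD t` (single terms of the sum), `vZ = sC + (4 t + 4) vD - sA ≥ vD + 1`,
`14 card + 2 t + 20 ≤ c`. (There is a position, so `M ≥ 1`.) -/
def OrbStmt : Prop :=
  ∀ (M : ℕ) (x y : Finset (Fin M)) (p : Pos M) (b : Bas M),
    (gv M b ≤ wv M ∅ ∅ p → gv M b ≤ wv M x y p) ∧ (wv M ∅ ∅ p ≤ gv M b → wv M x y p ≤ gv M b)

/-- SRT (about 60 lines): sort `β ⊕ P` by the values `Sum.elim g (w z₀)` (for instance
`Tuple.sort` on `Fin n` for the reversed order, or `exists antitone` via `List.insertionSort`). -/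
def SrtStmt : Prop :=
  ∀ (β P Z : Type) [Fintype β] [Fintype P] (g : β → ℕ) (w : Z → P → ℕ) (z₀ : Z),
    (∀ z p p', w z₀ p ≤ w z₀ p' → w z p ≤ w z p') →
    (∀ z p b, (g b ≤ w z₀ p → g b ≤ w z p) ∧ (w z₀ p ≤ g b → w z p ≤ g b)) →
    ∀ n : ℕ, n = Fintype.card (β ⊕ P) →
    ∃ e : Fin n ≃ β ⊕ P, ∀ z, Antitone (fun j => Sum.elim g (w z) (e j))

/-! ## Counting -/

/-- DJ3 (about 40 lines): the number of the disjoint pairs. `∑ x, 2 ^ (M - |x|) = 3 ^ M`
(`Finset.sum_pow_mul_eq_add_pow`), the `y` disjoint from `x` are the subsets of `xᶜ`. -/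
def Dj3Stmt : Prop :=
  ∀ M : ℕ, (Finset.univ.filter
    (fun p : Finset (Fin M) × Finset (Fin M) => ∀ i, i ∈ p.1 → i ∉ p.2)).card = 3 ^ M

/-- REC (about 40 lines): `U = ⋃ A`; `A` is contained in the subsets of `U` and `B` in the subsets
of `Uᶜ`. -/
def RecStmt : Prop :=
  ∀ (M : ℕ) (A B : Finset (Finset (Fin M))), (∀ a ∈ A, ∀ b ∈ B, ∀ i, i ∈ a → i ∉ b) →
    A.card * B.card ≤ 2 ^ M

/-- LEV (about 50 lines): the highest binary digit in which `r < c` differ. Induction on `M`:
if `r / 2 = c / 2` then `h = 0`; otherwise `r / 2 < c / 2` and induction for `r / 2, c / 2`. -/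
def LevStmt : Prop :=
  ∀ M r c : ℕ, r < 2 ^ (M + 1) → c < 2 ^ (M + 1) → r < c →
    ∃ h, h ≤ M ∧ r / 2 ^ (h + 1) = c / 2 ^ (h + 1) ∧ (r / 2 ^ h) % 2 = 0 ∧ (c / 2 ^ h) % 2 = 1

/-- DEC (uses LEV; about 120 lines). Ranks: `r x = #{x' | a x' < a x} < 2 ^ M`,
`c y = #{x' | a x' + b y < 0} ≤ 2 ^ M`, and `0 ≤ a x + b y ↔ c y ≤ r x`. The index `0`: labels
`r x`, `c y` (they agree iff `r x = c y`). The index `1 + h` (`h ≤ M`): label of `x`:
`2 (r x / 2 ^ (h + 1))` if the digit `(r x / 2 ^ h) % 2` is `0`, otherwise `1`; label of `y`: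
`2 (c y / 2 ^ (h + 1))` if the digit of `c y` is `1`, otherwise `3`. (They agree iff the higher
digits agree and the `h`-th digits are `0`, `1`; then `r x < c y`.) The index `M + 2 + h`: the same
with the digits `1` for `x`, `0` for `y`; then `c y < r x`. -/
def DecStmt : Prop :=
  ∀ (M : ℕ) (X Y : Type) [Fintype X], Fintype.card X ≤ 2 ^ M → ∀ (a : X → ℝ) (b : Y → ℝ),
    ∃ (p : Fin (2 * M + 3) → X → ℕ) (q : Fin (2 * M + 3) → Y → ℕ),
      (∀ x y, ∃ i, p i x = q i y) ∧
      ∀ i x y x' y', p i x = q i y → p i x' = q i y' → p i x = p i x' →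
        (0 ≤ a x + b y ↔ 0 ≤ a x' + b y')

/-- CMB (uses DJ3, REC, DEC; about 150 lines). `X = Y = Finset (Fin (2 m))`, `N = 4 ^ m` elements.
For each of the `9 ^ m` disjoint pairs `(x, y)` there is `k` with `¬ G k ..`; fix `k`. DEC for each
`l` gives labels; the pair has for each `l` an index `i l` (`(4 m + 3) ^ s` vectors), and for a
fixed vector the labels `P x = Q y` in `Fin s → ℕ`. The pairs `(x, y)` with `P x = Q y` and
`¬ G k ..`: all pairs `(x', y')` with `P x' = Q y' = P x` satisfy `¬ G k ..` (same truth values)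
and so are disjoint; by REC the classes `A = {x' | P x' = P x}`, `B = {y' | Q y' = P x}` satisfy
`|A| |B| ≤ 4 ^ m`, so `|A| ≤ 2 ^ m` or `|B| ≤ 2 ^ m`. The pairs of the first kind: at most `2 ^ m`
for each `y`; of the second kind: at most `2 ^ m` for each `x`. Together `2 · 2 ^ m · 4 ^ m`. -/
def CmbStmt : Prop :=
  ∀ (m K s : ℕ) (a b : Fin K → Fin s → Finset (Fin (2 * m)) → ℝ)
    (G : Fin K → Set (Fin s) → Prop),
    (∀ x y : Finset (Fin (2 * m)), (∃ i, i ∈ x ∧ i ∈ y) ↔
      ∀ k, G k {l | 0 ≤ a k l x + b k l y}) →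
    9 ^ m ≤ 2 * 8 ^ m * (4 * m + 3) ^ s * K

/-! ## The result -/

/-- FIN (uses MT1, MT2, SEQ, ORA, ORB, SRT, CMB and `PDM.MainStmt`; about 120 lines). -/
def ResStmt : Prop :=
  ∀ m : ℕ, ∃ n : ℕ, 14 * m ≤ n ∧ n ≤ 10 ^ 11 * (8 * m + 2) ^ 19 ∧
    ∀ (K s : ℕ) (φ : Fin K → Fin s → Fin n → ℕ → ℝ) (G : Fin K → Set (Fin s) → Prop),
      (∀ v : Fin n → ℕ, Antitone v → ∑ i, v i + 12 = 6 * n →
        (Realizable (Finset.univ.val.map v) ↔ ∀ k, G k {l | 0 ≤ ∑ i, φ k l i (v i)})) →
      9 ^ m ≤ 2 * 8 ^ m * (4 * m + 3) ^ s * K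

/-! ## All lengths -/

/-- MAP (about 200 lines). Isolated vertices do not matter for planarity. The darts of `G.map f` and
`G` correspond (`Dart` equivalence through `f`), `ρ` is transported, the faces correspond
(`Quotient`), the edges correspond; with `c` the number of the vertices outside the range of `f`
the numbers of vertices, isolated vertices and components increase by `c`. -/
def MapStmt : Prop :=
  ∀ (V W : Type) [Fintype V] [Fintype W] (G : SimpleGraph V) (f : V ↪ W),
    Planar (G.map f) ↔ Planar G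

/-- ZRO (uses MAP; about 80 lines). From left to right: `V` = the vertices of degree `≠ 0`,
`G = (G.induce ..).map (Function.Embedding.subtype _)`. From right to left: `V ⊕ Fin z`. -/
def ZroStmt : Prop :=
  ∀ (s : Multiset ℕ) (z : ℕ), (∀ x ∈ s, x ≠ 0) →
    (Realizable (s + Multiset.replicate z 0) ↔ Realizable s)

/-- FN2 (uses MT1, MT2, SEQ, ORA, ORB, SRT, CMB, ZRO and `PDM.MainStmt`): the final theorem for all
lengths `n ≥ 10 ^ 11 (8 m + 2) ^ 19`; the sequences in question are nonincreasing with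
`∑ v = 6 n' - 12`, where `n'` is the number of the nonzero entries. -/
def Rs2Stmt : Prop :=
  ∀ m n : ℕ, 10 ^ 11 * (8 * m + 2) ^ 19 ≤ n →
    ∀ (K s : ℕ) (φ : Fin K → Fin s → Fin n → ℕ → ℝ) (G : Fin K → Set (Fin s) → Prop),
      (∀ v : Fin n → ℕ, Antitone v →
        ∑ i, v i + 12 = 6 * (Finset.univ.filter (fun i => v i ≠ 0)).card →
        (Realizable (Finset.univ.val.map v) ↔ ∀ k, G k {l | 0 ≤ ∑ i, φ k l i (v i)})) →
      9 ^ m ≤ 2 * 8 ^ m * (4 * m + 3) ^ s * K

end Pool.Agent.PDX
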